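import Pool.Agent.ASE.Stmts9

/-!
# ASE row XCG: the characters `xc` of the comparison datum
-/

open scoped BigOperators

noncomputable section

namespace Pool.Agent.PP.SE.H67

open Pool.Agent.Helper51_AWC Pool.Agent.Helper79_WRA Pool.Agent.PP Pool.Agent.PP.KF
open Pool.Agent.PP.K9 Pool.Agent.PP.K9.H97 Pool.Agent.PP.H75 Pool.Agent.PP.T3 Pool.Agent.PP.SO
open Pool.Agent.PP.SD Pool.Agent.PP.SE

attribute [local instance] Ideal.Quotient.field

section aux

variable {V₀ S G : Type} [CommGroup V₀] [Group S] [Group G]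

theorem mem_CG {φ : S →* MulAut V₀} {j : V₀ ⋊[φ] S →* G} {W : Subgroup V₀} {x : G} :
    x ∈ CG j W ↔ ∀ w ∈ W, iG j w * x = x * iG j w := by
  constructor
  · intro h w hw
    exact Subgroup.mem_centralizer_iff.1 h _ (Subgroup.mem_map_of_mem _ hw)
  · intro h
    refine Subgroup.mem_centralizer_iff.2 ?_
    rintro z ⟨w, hw, rfl⟩
    exact h w hw

theorem map_comap_St {φ : S →* MulAut V₀} (W : Subgroup V₀) :
    ((St φ.range W).comap φ).map φ = St φ.range W := by
  rw [Subgroup.map_comap_eq, inf_eq_right]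
  intro σ hσ
  exact hσ.1

theorem mem_mp {σ : MulAut V₀} {W : Subgroup V₀} {a : V₀} : a ∈ mp σ W ↔ σ⁻¹ a ∈ W := by
  constructor
  · rintro ⟨w, hw, rfl⟩
    show σ⁻¹ (σ w) ∈ W
    rw [MulAut.inv_apply_self]
    exact hw
  · intro h
    refine ⟨σ⁻¹ a, h, ?_⟩
    show σ (σ⁻¹ a) = a
    rw [MulAut.apply_inv_self]

theorem left_conj {φ : S →* MulAut V₀} (y z : V₀ ⋊[φ] S) (hz : φ z.right = 1) :
    (y⁻¹ * z * y).left = (φ y.right)⁻¹ z.left := by
  rw [SemidirectProduct.mul_left, SemidirectProduct.mul_left, SemidirectProduct.mul_right,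
    SemidirectProduct.inv_left, SemidirectProduct.inv_right, map_mul, hz, mul_one, map_inv,
    inv_mul_cancel_comm, map_inv]

theorem right_conj {φ : S →* MulAut V₀} (y z : V₀ ⋊[φ] S) :
    (y⁻¹ * z * y).right = y.right⁻¹ * z.right * y.right⁻¹⁻¹ := by
  rw [SemidirectProduct.mul_right, SemidirectProduct.mul_right, SemidirectProduct.inv_right,
    inv_inv]

end aux

theorem xcg (hCEN : CenStmt) (hBLG : BlgStmt) (hTGG : TggStmt) (hIND : IndStmt) (hVXG : VnuStmt)
    (hLLW : LlwStmt) : XcgStmt := by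
  classical
  intro ℓ _ M _ hM V₀ S G _ _ _ _ _ _ φ θ κ d π j hF hT hC
  have hp : ℓ.Prime := Fact.out
  obtain ⟨hinj, -, hconj, hcen⟩ := hCEN ℓ V₀ S G φ π j hF hC
  obtain ⟨-, -, hblg⟩ := hBLG ℓ M hM V₀ S G φ θ κ d π j hF hT hC
  have hl1 : ((ℓ : ℂ) - 1) ≠ 0 := by
    have h1 : ℓ ≠ 1 := hp.one_lt.ne'
    intro h
    apply h1
    have : (ℓ : ℂ) = 1 := by linear_combination h
    exact_mod_cast this
  refine ⟨⟨?_, ?_⟩, ?_⟩
  · intro W hW hn
    obtain ⟨hmem, hdec, hmap, hile, -, -, hker, -, -, -⟩ := hcen W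
    obtain ⟨⟨lam, hlam, hlW, hlx⟩, hl⟩ := hLLW ℓ V₀ φ.range hF W hW
    obtain ⟨-, hl3, hl4, -⟩ := hl lam hlam hlW hlx
    obtain ⟨hl4a, hl4b⟩ := hl4 hn
    set S₁ : Subgroup S := (St φ.range W).comap φ with hS₁
    have hxi : ∀ x ∈ CG j W, xcG ℓ κ π j W x = xiL φ κ S₁ lam (π x) := by
      intro x hx
      unfold xcG xiL
      rw [if_pos hx, hS₁, map_comap_St]
      by_cases hx2 : (π x).left ∈ W
      · rw [if_pos hx2, hl4a _ hx2]
      · rw [if_neg hx2, hl4b _ hx2]
    refine ⟨⟨?_, ?_⟩, ?_⟩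
    · intro g hg
      exact if_neg hg
    · have h1 := hIND ℓ M hM V₀ S φ θ κ d hF hT S₁ hker lam hlam (by
        intro s hs hv
        exact hl3 (φ s) hs hv)
      obtain ⟨-, h3, -⟩ := hblg (CG j W) hile S₁ hker hmap
      have h4 := h3 _ h1
      have e1 : (fun t : CG j W => xiL φ κ S₁ lam (π t)) =
          fun t : (BG φ θ d π j).C W => xcG ℓ κ π j W t := by
        funext t
        exact (hxi t t.2).symm
      have e2 : (fun t : CG j W => eR φ θ (π t)) =
          fun t : (BG φ θ d π j).C W => (BG φ θ d π j).b W t := by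
        funext t
        exact (if_pos t.2).symm
      rw [e1, e2] at h4
      exact h4
    · intro w hw
      have h1 := (hVXG ℓ M hM V₀ S G φ θ κ d π j hF hT hC (xcG ℓ κ π j W)
        (fun v => if v ∈ W then (ℓ : ℂ) - 1 else -1) (by
          intro v s hs
          unfold xcG
          rw [hC.sec, if_pos]
          rw [hmem]
          show φ s ∈ _
          rw [hs]
          exact Subgroup.one_mem _)).2 (by
          show (if (1 : V₀) ∈ W then (ℓ : ℂ) - 1 else -1) ≠ 0
          rw [if_pos W.one_mem]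
          exact hl1) w
      rw [h1]
      show (if w ∈ W then (ℓ : ℂ) - 1 else -1) / (if (1 : V₀) ∈ W then (ℓ : ℂ) - 1 else -1) = 1
      rw [if_pos hw, if_pos W.one_mem, div_self hl1]
  · intro W hW hn σ hσ t ht hact
    obtain ⟨y, rfl⟩ := ((hTGG ℓ M hM V₀ S G φ θ κ d π j hF hT hC).1 t).1 ht
    have hσ' : ∀ v, σ v = φ y.right v := by
      intro v
      apply hinj
      rw [← hconj]
      exact (hact v).symm
    have hσe : σ = φ y.right := MulEquiv.ext hσ'
    have hmemc : ∀ g, g ∈ CG j (mp σ W) ↔ (j y)⁻¹ * g * j y ∈ CG j W := by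
      intro g
      rw [mem_CG, mem_CG]
      have key : ∀ v, iG j (σ v) * g = g * iG j (σ v) ↔
          iG j v * ((j y)⁻¹ * g * j y) = (j y)⁻¹ * g * j y * iG j v := by
        intro v
        have h1 : iG j (σ v) = j y * iG j v * (j y)⁻¹ := (hact v).symm
        rw [h1]
        constructor
        · intro h
          calc iG j v * ((j y)⁻¹ * g * j y)
              = (j y)⁻¹ * (j y * iG j v * (j y)⁻¹ * g) * j y := by group
            _ = (j y)⁻¹ * (g * (j y * iG j v * (j y)⁻¹)) * j y := by rw [h]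
            _ = (j y)⁻¹ * g * j y * iG j v := by group
        · intro h
          calc j y * iG j v * (j y)⁻¹ * g
              = j y * (iG j v * ((j y)⁻¹ * g * j y)) * (j y)⁻¹ := by group
            _ = j y * ((j y)⁻¹ * g * j y * iG j v) * (j y)⁻¹ := by rw [h]
            _ = g * (j y * iG j v * (j y)⁻¹) := by group
      constructor
      · intro h w hw
        refine (key w).1 (h (σ w) ?_)
        exact ⟨w, hw, rfl⟩
      · rintro h w' ⟨w, hw, rfl⟩
        exact (key w).2 (h w hw)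
    funext g
    show xcG ℓ κ π j (mp σ W) g = xcG ℓ κ π j W ((j y)⁻¹ * g * j y)
    unfold xcG
    by_cases hg : g ∈ CG j (mp σ W)
    · rw [if_pos hg, if_pos ((hmemc g).1 hg)]
      have e1 : π ((j y)⁻¹ * g * j y) = y⁻¹ * π g * y := by
        rw [map_mul, map_mul, map_inv, hC.sec]
      rw [e1, right_conj, hT.kc]
      by_cases hr : φ (π g).right = 1
      · rw [left_conj _ _ hr]
        congr 1
        have e2 : (π g).left ∈ mp σ W ↔ (φ y.right)⁻¹ (π g).left ∈ W := by
          rw [mem_mp, hσe]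
        by_cases h5 : (π g).left ∈ mp σ W
        · rw [if_pos h5, if_pos (e2.1 h5)]
        · rw [if_neg h5, if_neg (fun h6 => h5 (e2.2 h6))]
      · rw [hT.kz _ (fun h => hr h), zero_mul, zero_mul]
    · rw [if_neg hg, if_neg (fun h => hg ((hmemc g).2 h))]
  · intro W
    unfold xcG
    rw [if_pos (Subgroup.one_mem _), map_one, SemidirectProduct.one_left,
      SemidirectProduct.one_right, if_pos W.one_mem, hT.kd]
    ring

end Pool.Agent.PP.SE.H67
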