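import Pool.Agent.ASE.Stmts2b
import Pool.Agent.Helper33_ASO.NSV
import Pool.Agent.Helper10_ASO.W12B
import Pool.Agent.Helper44_ASD.SSD

/-!
# ASE row RNA: `d1`, `d2`, `d3`, `d4` for `Rw E₀ W`
-/

open scoped BigOperators

set_option linter.unusedSectionVars false

noncomputable section

namespace Pool.Agent.PP.SE.H67

open Pool.Agent.Helper51_AWC Pool.Agent.Helper79_WRA Pool.Agent.PP Pool.Agent.PP.KF
open Pool.Agent.PP.K9 Pool.Agent.PP.K9.H97 Pool.Agent.PP.H75 Pool.Agent.PP.T3 Pool.Agent.PP.SO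
open Pool.Agent.PP.SD Pool.Agent.PP.SE

attribute [local instance] Ideal.Quotient.field

section blk

variable {ℓ : ℕ} [Fact ℓ.Prime] {V₀ G : Type} [CommGroup V₀] [Group G]
  {M : Ideal (integralClosure ℤ ℂ)} [M.IsMaximal] [Finite V₀] [Finite G]
  {E₀ : Subgroup (MulAut V₀)} (B : Bk (FF M) V₀ G)

/-- the central character at `fc W x` if `W` and `x` generate `V₀` -/
theorem cv_fc_top {W : Subgroup V₀} {x : V₀} (hxt : W ⊔ Subgroup.zpowers x = ⊤) {χ : G → ℂ}
    (hχc : ∀ z ∈ B.C W, ∀ g, χ (z * g * z⁻¹) = χ g) :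
    cv (fc B W x) χ = Nat.card (B.C W) / (Nat.card (B.C ⊤) * χ 1) *
      ∑ᶠ s, bh B ⊤ s * χ (B.i x * s) := by
  classical
  have := Fintype.ofFinite G
  have := Fintype.ofFinite (B.C W)
  have h1 : ∑ᶠ g, fc B W x g * χ g = (Nat.card (B.C ⊤) : ℂ)⁻¹ *
      (Nat.card (B.C W) * ∑ s, bh B ⊤ s * χ (B.i x * s)) := by
    have h2 : ∀ g, fc B W x g * χ g = (Nat.card (B.C ⊤) : ℂ)⁻¹ *
        ∑ z : B.C W, bh B ⊤ ((B.i x)⁻¹ * ((z : G)⁻¹ * g * z)) *
          χ ((z : G)⁻¹ * g * z) := by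
      intro g
      unfold fc
      rw [hxt, finsum_eq_sum_of_fintype, mul_assoc, Finset.sum_mul]
      congr 1
      refine Finset.sum_congr rfl fun z _ => ?_
      have h3 := hχc (z : G)⁻¹ ((B.C W).inv_mem z.2) g
      rw [inv_inv] at h3
      rw [h3]
    rw [finsum_eq_sum_of_fintype, Finset.sum_congr rfl fun g _ => h2 g, ← Finset.mul_sum,
      Finset.sum_comm]
    congr 1
    have h3 : ∀ z : B.C W, ∑ g, bh B ⊤ ((B.i x)⁻¹ * ((z : G)⁻¹ * g * z)) *
        χ ((z : G)⁻¹ * g * z) = ∑ s, bh B ⊤ s * χ (B.i x * s) := by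
      intro z
      rw [← Equiv.sum_comp (MulAut.conj (z : G)).toEquiv,
        ← Equiv.sum_comp (Equiv.mulLeft (B.i x))]
      refine Finset.sum_congr rfl fun s _ => ?_
      show bh B ⊤ ((B.i x)⁻¹ * ((z : G)⁻¹ * (z * (B.i x * s) * (z : G)⁻¹) * z)) *
        χ ((z : G)⁻¹ * (z * (B.i x * s) * (z : G)⁻¹) * z) = _
      have h4 : (z : G)⁻¹ * (z * (B.i x * s) * (z : G)⁻¹) * z = B.i x * s := by group
      rw [h4, inv_mul_cancel_left]
    rw [Finset.sum_congr rfl fun z _ => h3 z, Finset.sum_const, Finset.card_univ,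
      nsmul_eq_mul, Nat.card_eq_fintype_card]
  unfold cv
  rw [h1, finsum_eq_sum_of_fintype]
  field_simp

/-- `fc W w` for `w ∈ W` -/
theorem fc_mem {W : Subgroup V₀} {w : V₀} (hw : w ∈ W) : fc B W w = tk B w (fc B W 1) := by
  funext g
  unfold tk fc
  have e1 : W ⊔ Subgroup.zpowers w = W := sup_eq_left.2 ((Subgroup.zpowers_le).2 hw)
  have e2 : W ⊔ Subgroup.zpowers (1 : V₀) = W := sup_eq_left.2 ((Subgroup.zpowers_le).2 W.one_mem)
  rw [e1, e2]
  congr 1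
  refine finsum_congr fun z => ?_
  congr 1
  have h3 : B.i w * z = z * B.i w := (H33.mem_C B).1 z.2 w hw
  have h4 : (B.i w)⁻¹ * (z : G)⁻¹ = (z : G)⁻¹ * (B.i w)⁻¹ := by
    rw [← mul_inv_rev, ← mul_inv_rev, h3]
  rw [map_one, inv_one, one_mul, ← mul_assoc, ← mul_assoc, h4]
  group

end blk

/-- a stabiliser with one element -/
theorem St_triv {V₀ : Type} [CommGroup V₀] {E₀ : Subgroup (MulAut V₀)} {W : Subgroup V₀}
    (h : Rw E₀ W) {τ : MulAut V₀} : τ ∈ St E₀ W ↔ τ = 1 := by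
  constructor
  · intro hτ
    exact h.2 τ hτ.1 hτ.2
  · rintro rfl
    exact Subgroup.one_mem _

theorem rna (hNsd : NsdStmt) (hCzb : CzbStmt) : RnaStmt := by
  classical
  intro ℓ _ M _ hM hl2 V₀ G _ _ _ _ E₀ hq B hB W hW D hD
  have := Fintype.ofFinite V₀
  have htop : Rw E₀ (⊤ : Subgroup V₀) := SD.H44.rw_top hW
  obtain ⟨nbij, ncv, -, -, -, -, -⟩ := hNsd ℓ M hM hl2 V₀ G E₀ hq B hB W hW
  obtain ⟨tfc, -, ttk, -, -, -, tch, tfin⟩ := hCzb ℓ M hM hl2 V₀ G E₀ hq B hB.toSb W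
  have hStop : B.S ⊤ = 1 := SD.H44.S_top hB hl2 htop
  have hSsq : (B.S W : ℂ) * B.S W = 1 := by
    have := SD.H44.S_sq hB hW
    exact_mod_cast congrArg (fun q : ℚ => (q : ℂ)) this
  have hS0 : (B.S W : ℂ) ≠ 0 := by
    intro h
    rw [h, zero_mul] at hSsq
    exact zero_ne_one hSsq
  obtain ⟨hD0, hDg⟩ := hB.dg W hW
  obtain ⟨hD0t, -⟩ := hB.dg ⊤ htop
  have hDW : (B.D W : ℂ) ≠ 0 := by exact_mod_cast hD0.ne'
  have hDt : (B.D ⊤ : ℂ) ≠ 0 := by exact_mod_cast hD0t.ne'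
  have hCt : (Nat.card (B.C ⊤) : ℂ) ≠ 0 := by exact_mod_cast Nat.card_pos.ne'
  have hCW : (Nat.card (B.C W) : ℂ) ≠ 0 := by exact_mod_cast Nat.card_pos.ne'
  have hχ1 : ∀ χ ∈ Ch B W, χ 1 = B.D W := fun χ hχ => hDg _ hχ.2
  have hSt : (St E₀ W) = ⊥ := by
    rw [Subgroup.eq_bot_iff_forall]
    exact fun τ hτ => (St_triv hW).1 hτ
  have hnS : nS E₀ W = 1 := by
    unfold nS
    rw [hSt, Subgroup.card_bot]
  have hux : ∀ c, ux D.U W c = ux B.U W c := by
    intro c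
    unfold ux
    rw [hD.dU]
  have hfm : ∀ c, fm ℓ E₀ B D W c = fc B W c := by
    intro c
    funext g
    unfold fm
    rw [hnS, hD.de]
    have e1 : (if c ∈ W then ((1 : ℕ) : ℂ) else 1) = 1 := by
      by_cases h : c ∈ W
      · rw [if_pos h, Nat.cast_one]
      · rw [if_neg h]
    have e2 : (if c ∈ W then (0 : ℂ) else tk B (pr ℓ E₀ W c) (0 : G → ℂ) g) = 0 := by
      by_cases h : c ∈ W
      · rw [if_pos h]
      · rw [if_neg h]
        rfl
    rw [e1, e2, one_mul, sub_zero]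
  have hUt : B.U ⊤ = 1 := by
    unfold Bk.U
    rw [hStop]
    have h1 : (Nat.card (B.C ⊤) : ℚ) ≠ 0 := by exact_mod_cast Nat.card_pos.ne'
    have h2 : (B.D ⊤ : ℚ) ≠ 0 := by exact_mod_cast hD0t.ne'
    field_simp
    norm_num
  have hlam : ∀ χ ∈ Ch B W, lam B W χ ∈ lin V₀ := fun χ hχ => nbij.1 hχ
  refine ⟨⟨hnS, ?_, hfm⟩, ?_, ?_, ?_, ?_⟩
  · rintro rfl
    rw [hD.dU, hUt]
  · -- d1
    intro χ hχ x hx
    obtain ⟨-, -, -, -, hcl⟩ := tch χ hχ
    rw [hD.dD χ hχ]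
    rcases hx with hx | hx
    · have h1 := cv_fc_top B (H33.sup_top hq.cd hW.1 hx) hcl
      rw [ncv χ hχ x, hχ1 χ hχ] at h1
      have h2 : ((ux B.U W x : ℚ) : ℂ) =
          B.S W * Nat.card (B.C W) * B.D ⊤ / (Nat.card (B.C ⊤) * B.D W) := by
        unfold ux Bk.U
        rw [if_neg hx]
        push_cast
        rfl
      rw [h2] at h1
      have h3 : (B.D ⊤ : ℂ) * (B.S W * lam B W χ x) =
          (Nat.card (B.C ⊤) * B.D W / Nat.card (B.C W)) *
          (B.S W * Nat.card (B.C W) * B.D ⊤ / (Nat.card (B.C ⊤) * B.D W) * lam B W χ x) := by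
        field_simp
      rw [h3, h1]
      field_simp
    · subst hx
      have h1 := cv_fc_top B (W := ⊤) (x := x) (top_sup_eq _) hcl
      rw [ncv χ hχ x, hχ1 χ hχ] at h1
      have h2 : ((ux B.U ⊤ x : ℚ) : ℂ) = 1 := by
        unfold ux
        rw [if_pos (Subgroup.mem_top x), Rat.cast_one]
      rw [h2, one_mul] at h1
      rw [h1, hStop]
      push_cast
      field_simp
  · -- d2
    intro χ hχ
    have hl := hlam χ hχ
    refine ⟨?_, ?_, ?_⟩
    · rw [hD.dD χ hχ, hl.1, mul_one]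
      exact hS0
    · intro x
      rw [hD.dD χ hχ, hD.dD χ hχ, map_mul, SO.H10W.lin_conj hl]
      congr 1
      exact map_intCast _ _
    · intro w hw x
      have h1 : lam B W χ w = nu B χ w := by
        have h2 := (ttk (fc B W 1) (tfc 1) w hw).2 χ hχ
        have h3 : ∀ v ∈ W, ((ux B.U W v : ℚ) : ℂ) = 1 := by
          intro v hv
          unfold ux
          rw [if_pos hv, Rat.cast_one]
        rw [← fc_mem B hw, ncv χ hχ, ncv χ hχ, h3 w hw, h3 1 W.one_mem, hl.1] at h2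
        linear_combination h2
      rw [hD.dD χ hχ, hD.dD χ hχ, hl.2, h1]
      ring
  · -- d3
    intro χ hχ c x
    have hl := hlam χ hχ
    have h1 : ∑ᶠ τ : St E₀ W, D.D W χ (x * (τ : MulAut V₀) c) = D.D W χ (x * c) := by
      have hu : Unique (St E₀ W) := by
        refine ⟨⟨1⟩, ?_⟩
        rintro ⟨τ, hτ⟩
        exact Subtype.ext ((St_triv hW).1 hτ)
      rw [finsum_unique]
      have h2 : ((default : St E₀ W) : MulAut V₀) = 1 := (St_triv hW).1 (default : St E₀ W).2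
      rw [h2]
      rfl
    rw [h1, hfm, hux, ncv χ hχ, hD.dD χ hχ, hD.dD χ hχ, hl.2]
    ring
  · -- d4
    intro x y
    have h1 : ∑ᶠ χ ∈ Ch B W, D.D W χ x * starRingEnd ℂ (D.D W χ y) =
        ∑ᶠ μ ∈ lin V₀, μ (x * y⁻¹) := by
      refine finsum_mem_eq_of_bijOn (lam B W) nbij fun χ hχ => ?_
      have hl := hlam χ hχ
      rw [hD.dD χ hχ, hD.dD χ hχ, map_mul, SO.H10W.lin_conj hl, map_intCast, hl.2]
      linear_combination (lam B W χ x * lam B W χ y⁻¹) * hSsq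
    have hlf : (lin V₀).Finite := by
      have h2 := tfin.image (lam B W)
      rwa [nbij.image_eq] at h2
    rw [h1, finsum_mem_eq_finite_toFinset_sum _ hlf, SO.H10W.lin_sum hlf, hq.cd]
    by_cases hxy : x = y
    · subst hxy
      have h3 : {τ : MulAut V₀ | τ ∈ St E₀ W ∧ τ x = x} = {1} := by
        ext τ
        rw [Set.mem_ofPred_eq, Set.mem_singleton_iff, St_triv hW]
        constructor
        · exact fun h => h.1
        · rintro rfl
          exact ⟨rfl, rfl⟩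
      rw [if_pos (mul_inv_cancel x), h3, Set.ncard_singleton]
      push_cast
      ring
    · have h3 : {τ : MulAut V₀ | τ ∈ St E₀ W ∧ τ x = y} = ∅ := by
        rw [Set.eq_empty_iff_forall_notMem]
        rintro τ ⟨h4, h5⟩
        rw [St_triv hW] at h4
        subst h4
        exact hxy h5
      rw [if_neg (fun h => hxy (mul_inv_eq_one.1 h)), h3, Set.ncard_empty]
      push_cast
      ring

end Pool.Agent.PP.SE.H67
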